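import Pool.Agent.K6.H79.FC.Full

/-!
# The Tate conjecture for the function fields of the varieties dominated by a product of an abelian
variety of full angle rank and any unrelated variety of dimension at most three

Let `k` be the field with `q` elements and let `π i` (`i` in a finite set) be elements of CM fields `K i`
all of whose complex conjugates have absolute value `√q`, the Frobenius endomorphisms of abelian
varieties over `k`. The family
`π` has **full angle rank** (`FullAngleRank`): the only multiplicative relations between all the complex
conjugates of the numbers `π i` are those in which complex conjugate numbers have the same exponents.
The fields `K i` may be equal or dependent. For abelian varieties without supersingular factors this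
means that all Tate classes on their powers over all finite extensions are generated by divisors
(Zarhin). It is true for instance if the numbers `π i` generate the fields `K i`, which are pairwise
independent, and have nondegenerate slope types (`full_of_neat` in `K6/H79/TX/Rank` together with
`neat_of_types` of the starting files).

Let `𝒫` (`IsProduct`) be the class of the products `A × Z` over finite extensions of `k`, regarded as
schemes over `k`, where

* `A` is any abelian variety isogenous to a product of powers of abelian varieties coming from `k` with
  characteristic polynomials `f i`, whose complex roots are conjugates of `π i`;
* `Z` is **any smooth projective variety of dimension at most three** over this extension for which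
  Tate's theorem on divisors holds and whose Frobenius endomorphism is semisimple, such that the
  homologically trivial self-correspondences of `A × Z` are nilpotent (`IsIndependentThreefold`); for
  instance a product of three **arbitrary** curves, an abelian threefold, or any variety of
  dimension at most three dominated by a product of curves for which the conjecture of Tate for
  divisors is known;
* the eigenvalues `ρ` of Frobenius on `H^*(Z)` are independent of the fields `K i`: for each complex
  embedding `ψ` of `K i` there is an automorphism of `ℂ`, which may depend on `ψ`, that fixes a power of
  `ρ` and is the complex conjugation on `ψ (K i)`. No condition is imposed on the relations between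
  the eigenvalues of `Z`.

Let `𝒢` (`Generated`) be the smallest class of schemes of finite type over `k` which contains `𝒫`, is
closed under motivic direct summands of sums of twists, and contains all of a closed subscheme `Z` of
`X`, `X` and `X ∖ Z` if it contains two of them, and `𝒮` (`Spread`) the smallest class which contains
`𝒢`, all open subschemes and all images under proper morphisms of its members, the unions of a closed
and an open member, and the schemes whose motives are direct summands of sums of twists of motives of
members. So `𝒮` contains all varieties `X` of any dimension for which there is a dominant rational map
`A × Z → X` with `A × Z` in `𝒫`.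

**The cohomology of the generic point.** Let `X` be a variety of dimension `e` in `𝒮`, and let `P` be the
system of its nonempty open subschemes `U` with the restriction maps (`Opens E X`). A class in
`H^i(F_0 X, ℚ_ℓ(j)) = lim H^i(U, ℚ_ℓ(j)) = lim H_m(U, ℚ_ℓ(j'))`, `m = 2 e - i`, `j' = e - j`, is given by
a class `x` on some `U`; two classes are equal in the limit if they are equal on a smaller open
subscheme. `TateFunctionField P` says: **for all `i ≥ 2 j` (that is, `m ≤ 2 j'`), every Frobenius
invariant class in `H^i(F_0 X, ℚ_ℓ(j))` is in the image of the group
`lim CH^j(U, 2 j - i) ⊗ Ω = CH^j(Spec k(X), 2 j - i) ⊗ Ω`**, that is, Q1 is true in these degrees; and it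
is zero, as predicted, if this group vanishes (`MotivicVanishes`).

The starting files and the other hand-ins treat abelian varieties `A` (`FunctionFieldsHalfOfAll`) and
`A × Y` for products `A` of elliptic curves and curves `Y` (`EllipticTimesCurve`).

The proof. Suppose that `θ ρ` is a power of `q` up to a root of unity, for a product `θ` of `n` eigenvalues
of `A` and an eigenvalue `ρ` of `Z`. The automorphisms that fix a power of `ρ` act on the eigenvalues of
`A`, and the product of the images of an eigenvalue `α` under a finite set of representatives does not
change if `α` is replaced by its complex conjugate, so that its square is a power of `q`; hence
`θ ^ (2 M) = q ^ (n M)` for some `M > 0`. By the full angle rank the eigenvalues in `θ` occur in complex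
conjugate pairs. So all Tate classes on `A × Z` are sums of products of Tate classes on `A` and on `Z`,
and they are generated by divisors, on `Z` by the hard Lefschetz theorem. By the argument of Kahn
(`K6/H99/EH`, starting files) the motivic homology groups of `A × Z` are then as predicted by Tate,
Beilinson and Parshin; this spreads to the class `𝒮` (starting `W495/FM`), and one can pass to the limit
over the open subschemes (`K6/H79/FF`).
-/

set_option autoImplicit false

namespace Pool.Agent.Results.MP_677d84_ag.AbelianTimesThreefolds

open NumberField Module Polynomial Pool.Agent.Y1.CT Pool.Agent.K6.H79.TX Pool.Agent.K6.H79.FC
  Pool.Agent.W495.FM Pool.Agent.K6.H99.EH.FF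

/-- **The Tate conjecture for the function fields of all varieties dominated by `A × Z`**, where `A` has
full angle rank and `Z` is an unrelated variety of dimension at most three. -/
theorem result {I : Type} [Fintype I] {K : I → Type} [∀ i, Field (K i)] [∀ i, NumberField (K i)]
    [∀ i, IsCMField (K i)] {π : ∀ i, K i} {q : ℕ} (hq : 1 < q)
    (hw : ∀ i, ∀ φ : K i →+* ℂ, ‖φ (π i)‖ ^ 2 = (q : ℝ)) (hfull : FullAngleRank π)
    {f : I → ℤ[X]} (hf : ∀ i, IsPolyOf (π i) (f i)) (Ω : Type) [Field Ω] [IsAlgClosed Ω]
    [CharZero Ω] (V : Type) (E : Homology Ω V) (hE : IsHomology E) (hW : HasWeights E) (X : V)
    (hX : Spread E (Generated E (IsProduct E q K f)) X) (P : Opens E X) : TateFunctionField P :=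
  tate_functionFields hq (noRel_of_full hfull (by omega) (fun i => mul_conj_of_norm (hw i)) hf) hE hW hX P

end Pool.Agent.Results.MP_677d84_ag.AbelianTimesThreefolds
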