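import Mathlib
import Pool.Agent.N578.LB.Main
import Pool.Agent.N220.ME.Final
import Pool.Agent.TH44.SS.Tate

/-!
# Semisimplicity and the Tate conjecture for the products of smooth varieties over finite fields with
the abelian varieties near almost every point of the space of real Weil polynomials

Let `g i` be positive integers (`i` in a finite set `I`) and `n = ∑ g i`. For a prime power `q` a
point `x` of `ℤ ^ n` gives the polynomials `h_i = X ^ (g i) + ∑ x_(i,k) X ^ k` (`hpoly`) and
`f_i = X ^ (g i) h_i(X + q / X)` (`fpoly`); all Weil `q`-polynomials of degree `2 g i` are of this
form, and `q ∤ tr(h_i) ^ 2` is a weak condition on the point.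

**The property** (`TateSemisimple E q r f`, starting files) of a family of polynomials `f i`. Let `A` be
an abelian variety over the field with `Q = q ^ s` elements, isogenous to a product of powers of
abelian varieties coming from the field with `q` elements, whose characteristic polynomials of
Frobenius are the `f i`, and let `U` be **any smooth variety** over the field with `Q` elements, not
necessarily proper, such that in each degree the eigenvalues of Frobenius on the cohomology `H m` of
`U` and their conjugates generate a group of rank at most `r` modulo the group of the numbers with a
power in the number field `E`. Let `Z m` be the span of the classes of cycles on `U` over the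
algebraic closure in the cohomology of degree `m`. Suppose that over all finite extensions the Tate
conjecture (surjectivity of the cycle maps, all codimensions) and the semisimplicity of the
eigenvalue `1` hold for `U` (`TateHolds`). **Then the same is true for `A × U`**: each element of the
generalized eigenspace of the `N`-th power of Frobenius in the cohomology of degree `2 i` for the
eigenvalue `Q ^ (i N)` is an eigenvector, and a combination of products of classes of divisors on
`A` and of classes in `Z`. If `U` is a point the conclusion is the Tate conjecture for `A`. This is
not formal, since the Tate classes of `A × U` involve all the eigenvalues `ρ` of `U` such that `ρ α`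
is a power of `Q` for some product `α` of eigenvalues of `A`.

**The theorem**: for almost every real point `ξ` of `ℝ ^ n` (for the Lebesgue measure), for all
number fields `E` and all `r` smaller than the `g i`, ALL the points `x` with
`|x_(i,k) - q ^ ((g i - k) / 2) ξ_(i,k)| ≤ q ^ η` (and `q ∤ tr(h_i) ^ 2`) have this property

* for every prime number `p` and `q = p ^ m` with `m` large, and
* for all but at most `C Q ^ β` of the prime powers `q ≤ Q`,

if `n η < 1 / 6` and `β > 5 / 6 + n η` (`HoldsNear`).

In the starting files (`AbelianTimesSmooth`) it is proved that the proportion of the
families without the property among all families of Weil polynomials of the degrees `2 g i` is at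
most `C q ^ (-1 / 6) log q`, for fixed `E`. That does not give a single real point near which all
(or even one) of the families have the property for infinitely many `q`. The proof combines the
sieve for lattices (`N578/LB`) and the metric theorem (`N220/ME`) of the starting files with the
splitting of the Tate classes (`TH44/SS`).
-/

set_option autoImplicit false

namespace Pool.Agent.Results.MP_81632f_ag.AlmostEveryPoint

open Polynomial MeasureTheory Pool.Agent.W484.TB Pool.Agent.W484.BB Pool.Agent.N578.LB
  Pool.Agent.N220.ME Pool.Agent.TH44.SS

/-- For positive integers `g i` and almost every point `ξ` of `ℝ ^ n`, `n = ∑ g i`, for all number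
fields `E` and all `r` smaller than all the `g i`: the property `TateSemisimple E q r f` holds near `ξ`
(`HoldsNear`). -/
theorem result {I : Type} [Fintype I] [DecidableEq I] (g : I → ℕ) :
    ∀ᵐ ξ : (Σ i, Fin (g i)) → ℝ, ∀ E : IntermediateField ℚ ℂ, FiniteDimensional ℚ E →
      ∀ r : ℕ, (∀ i, r < g i) → HoldsNear g (fun q f => TateSemisimple E q r f) ξ :=
  allFields g (fun E r q f => TateSemisimple E q r f) fun E hE r hr =>
    inAllLattices (splitPrimes E) (dense_splitPrimes E) g
      (fun i => (Nat.zero_le r).trans_lt (hr i)) _
      fun _ hq x hx => tateSemisimple_of E _ r hq.pos.ne' _
        (semisimpleForRankOver_of_good g E hq.pos.ne' r hr x hx)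
        (tateForRankOver_of_good g E hq.pos.ne' r hr x hx)

end Pool.Agent.Results.MP_81632f_ag.AlmostEveryPoint
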