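import Mathlib
import Pool.Agent.TH170.GS.Main
import Pool.Agent.TH170.GS.TB2
import Pool.Agent.Q29.EP.Rows

/-!
# The conjectures of Beilinson and Tate for smooth varieties over finite fields generated by abelian
varieties with one half of all slope types of every CM field of degree `2 r ^ k`

Over an algebraic closure of the field with `p` elements each abelian variety is isogenous to the
reduction of an abelian variety of CM type (Honda, Tate). So an abelian variety over the field with
`p ^ a` elements is modelled by `RedAV`: a finite product of CM types `(E i, Φ i)` with Weil numbers
`π i ∈ E i` that satisfy the formula of Shimura and Taniyama; its cohomology of degree `n`, with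
coefficients in an algebraically closed field `Ω`, consists of the alternating `n`-forms on
`Ω ⊗ H_1`, on which the Frobenius endomorphism acts by `π`. We fix an isomorphism `ν` of the
algebraic closure of `ℚ_p` with `ℂ`; it defines a `p`-adic valuation of `ℂ`.

Let `K i` be finitely many CM fields, of degrees `2 g i`, that are pairwise independent: for `i ≠ k`
and all complex embeddings `φ` of `K i` and `ψ` of `K k` some automorphism of `ℂ` is the identity on
`φ (K i)` and the complex conjugation on `ψ (K k)` (this is no condition for one field). Let `M i` be
functions with integral values on the complex embeddings of `K i`, invariant under complex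
conjugation (the weights). A CM type `Φ i` of `K i`, the weights `M i` and a real number `κ ≠ 0`
prescribe the slopes `(a + κ M) / 2` (at the embeddings in `Φ i`) and `(a - κ M) / 2` (outside of
`Φ i`) of a Weil number in `K i`; the case `M = 1`, `κ = a` is the ordinary case. For a family of
types `Φ i` let `𝒞` be the class of the abelian varieties each of whose factors is supersingular or
has a Frobenius endomorphism some power of which is, for some `i`, a Weil number in `K i` with the
slopes prescribed by `Φ i`, `M i` and some `κ i ≠ 0` (`OfTypes`).

`Homology Ω V` are data of motivic homology `M X i j = H_i^M(X, ℚ(j)) = CH_j(X, i - 2 j) ⊗ ℚ` and of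
`ℓ`-adic homology `E X i j = H_i(X, ℚ_ℓ(j))` (coefficients extended to `Ω`) of schemes `X` of finite
type over a finite field (the elements of `V`), with the Frobenius and the regulator. Let `𝒢` be the
smallest class (`Generated`) of such schemes that contains those with the homology groups of abelian
varieties in `𝒞` (`IsAbelianOfTypes`), that is closed under direct summands of finite sums of twists
of motives, and that contains all of a closed subscheme `Z` of `X`, `X` and `X ∖ Z` if it contains
two of them. It contains for instance all products of varieties in `𝒞`, all products of curves with
Jacobians in `𝒞` and of open subsets of such curves, and the singular and the open varieties with a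
stratification by such varieties. Let `𝒮` (`Spread`) be the smallest class of schemes that contains
`𝒢`, all open subschemes (with an arbitrary complement) and all images under proper morphisms of its
members, the schemes that are the union of a closed and an open member, and the schemes whose
motives are direct summands of sums of twists of motives of members. For example it contains all
varieties dominated by varieties in `𝒢`.

**The property `Holds` of the family `Φ`** is that all of the following is true:

* (Q2, and surjectivity in Q1) for all schemes `X` in `𝒮` and all `i` the eigenvalue one of the
  Frobenius on `H_(2 i)(X, ℚ_ℓ(i))` is semisimple, and the invariant elements are spanned by classes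
  of cycles of dimension `i` (`IsOnto T X i`);
* (Q1) for all schemes `X` in `𝒢` and all `i` the cycle class map induces an isomorphism of
  `CH_i(X) ⊗ Ω` with the space of the invariant elements (`IsIso T X i`);
* (Q1) the same holds for the complement of an arbitrary closed subscheme `Z` of dimension at most
  `d` of a scheme in `𝒢`, for all `i ≥ d`.

For smooth `X` of dimension `e` the group `H_(2 i)(X, ℚ_ℓ(i))` is `H^(2 (e - i))(X, ℚ_ℓ(e - i))`.

**The theorem.** Let `E` be **any CM field of degree `2 g = 2 r ^ k`**, `r` a prime number, of
degree at least `16` if `r = 2`; nothing is assumed about the Galois group of the normal closure of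
`E`, and nothing about the subfields of `E`.

* (`HalfOfAll`) For all weights `M` (odd if `r = 2`; if `r` is odd then `r` may divide some, but not
  all of them) the property is true for **at least one half of all `2 ^ g` types** of `E`.
* (`MostWithWeightsOne`) For the weights `M = 1` it is true for at least `(1 - 1 / r) 2 ^ g` of the
  types.
* (`OneOfTwo`) There is a set `B` of embeddings of `E`, stable under complex conjugation, such that
  for **every** type `Φ` it is true for `Φ` or for the symmetric difference of `Φ` and `B`.
* (`SixteenPercent`) There is a number `g₀` such that for every CM field that is **abelian over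
  `ℚ`**, of any degree `2 g ≥ 2 g₀`, and all odd weights it is true for at least 16 percent of all
  `2 ^ g` types.

All this is proved more generally for finitely many pairwise independent fields `K i`. In the
starting files (`AlmostAllSlopeTypes`) the property is proved for all families with the exception of
at most `2 ^ (∑ g i) ∑ ρ (K i)`, with numbers `ρ (K)` which contain the logarithm of the order of the
Galois group and the isotypic components of the odd part of the permutation representation on the
embeddings; this says nothing about fields with many CM subfields (multiquadratic fields), and for
components of high multiplicity and large Galois groups. The count of the types without relations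
between the signed weights is in the starting files (`Q29/EP`).
-/

set_option autoImplicit false

namespace Pool.Agent.Results.MP_81632f_ag.HalfOfAllSlopeTypes

open NumberField Module Pool.Agent.H204R3.CM Pool.Agent.H977R3.CM Pool.Agent.TH170
  Pool.Agent.W495.TA Pool.Agent.W495.FM Pool.Agent.Q29.EP

/-- Semisimplicity and surjectivity for the class `Spread` of the schemes generated by abelian
varieties with the slope types `Φ`, and bijectivity for these schemes and for complements. -/
def Holds {p : ℕ} [Fact p.Prime] (ν : PadicAlgCl p ≃+* ℂ) {I : Type} (K : I → Type)
    [∀ i, Field (K i)] (M : ∀ i, (K i →+* ℂ) → ℤ) (Φ : ∀ i, Set (K i →+* ℂ)) : Prop :=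
  ∀ (Ω : Type) [Field Ω] [IsAlgClosed Ω] [CharZero Ω] (V : Type) (T : Homology Ω V),
    IsHomology T → HasWeights T →
      (∀ X : V, Spread T (Generated T (GS.IsAbelianOfTypes ν K M Φ T)) X →
        ∀ i : ℤ, IsOnto T X i) ∧
      ∀ X : V, Generated T (GS.IsAbelianOfTypes ν K M Φ T) X →
        (∀ i : ℤ, IsIso T X i) ∧ ∀ (Z U : V) (d : ℤ), IsTriple T Z X U → HasDimLE T Z d →
          ∀ i : ℤ, d ≤ i → IsIso T U i

/-- The property `Holds` as a property of families of slope types. -/
def P : TypeProperty := fun _ _ ν _ _ K _ _ _ M Φ => Holds ν K M Φ

theorem holds_of {p : ℕ} [Fact p.Prime] {ν : PadicAlgCl p ≃+* ℂ} {I : Type} (K : I → Type)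
    [∀ i, Field (K i)] (M : ∀ i, (K i →+* ℂ) → ℤ) (Φ : ∀ i, Set (K i →+* ℂ))
    (h : ∀ Y : RedAV p ν, GS.OfTypes K M Φ Y → ∃ Z : RedAV p ν,
      TH117.BL.HasElementaryRelations Z ∧ TH117.BL.IsPowersTimesSupersingular Z Y) :
    Holds ν K M Φ := fun _ _ _ _ _ _ hT hW =>
  ⟨fun _ hX i => GS.onto_types h hT hW hX i, fun _ hX =>
    ⟨fun i => (GS.tb_types h hT hX).iso hT i, fun _ _ _ h1 hZ _ hi =>
      GS.iso_types h hT hW hX h1 hZ hi⟩⟩

theorem withoutRelations : WithoutRelations P := by
  intro p _ ν I _ K _ _ _ M Φ hind hMc hΦ hno
  exact holds_of K M Φ fun Y hY => ⟨Y, GS.elementary_of_types hind hMc hΦ
    (fun i => Pool.Agent.Q29.DP.notMem_degTypes_of_noRelations (hno i)) hY, fun k => Or.inr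
    ⟨k, RingHom.id _, 1, 1, one_pos, one_pos, rfl, rfl⟩⟩

/-- **The conjectures of Beilinson and Tate for all varieties generated by abelian varieties with one
half of all slope types of every CM field of degree `2 r ^ k`.** -/
theorem result : HalfOfAll P ∧ MostWithWeightsOne P ∧ OneOfTwo P ∧ SixteenPercent P :=
  ⟨halfOfAll withoutRelations, mostWithWeightsOne withoutRelations, oneOfTwo withoutRelations,
    sixteenPercent withoutRelations⟩

end Pool.Agent.Results.MP_81632f_ag.HalfOfAllSlopeTypes
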