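import Mathlib
import Pool.Agent.Y1.TS.Split
import Pool.Agent.Y1.TS.Angle
import Pool.Agent.Q29.EP.Rows

/-!
# The Tate conjecture for the products of arbitrary smooth varieties with abelian varieties with one
Frobenius element of one half of all slope types of every CM field of degree `2 r ^ k`

Let `K i` (`i` in a finite set) be CM fields of degree `2 g i` which are pairwise independent: for
`i ≠ k` and all complex embeddings `φ` of `K i` and `ψ` of `K k` some automorphism of `ℂ` is the
identity on `φ (K i)` and the complex conjugation on `ψ (K k)` (this is no condition if there is
only one field). We fix an isomorphism `ν` of the algebraic closure of `ℚ_p` with `ℂ`; it defines a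
`p`-adic valuation of `ℂ`, with the value one at `p`. Let `M i` be a function with integral values
on the complex embeddings of `K i`, invariant under complex conjugation (the weights). A CM type
`Φ i` of `K i` (a choice of one element out of each complex conjugate pair of embeddings; there are
`2 ^ (g i)` types), `M i` and a real number `κ ≠ 0` prescribe the slopes `(a + κ M) / 2` (at the
embeddings in `Φ i`) and `(a - κ M) / 2` (outside of `Φ i`) of a Weil number for `p ^ a` in `K i`
(`HasType`). The case `M = 1`, `κ = a` is the case of ordinary abelian varieties.

**The property `P` of the slope types.** Let `k` be a finitely generated field (of any
characteristic), `A` an abelian variety over `k`, and let `γ` be a Frobenius element of the Galois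
group `Γ` of `k` at **one** place of good reduction, the residue field having `p ^ a` elements, for
which the characteristic polynomial on the Tate module `V = V_ℓ (A)` is the product of the minimal
polynomials of Weil numbers `π i` which generate the fields `K i` and have the slope types `Φ i`,
`M i`. Let `U` be an **arbitrary smooth variety** over `k`, proper or not, and
`M = W_b H^b(U, ℚ_ℓ(i))`, or any other representation of `Γ`, such that the eigenvalues of `γ` on
`M` are roots of a polynomial `f ≠ 0` with rational coefficients all of whose complex roots `α` are
unrelated to the fields `K i` (`UnrelatedTo`): a function `n` on the complex embeddings of `K i` with
`n (conj φ) = - n φ` which is invariant under all automorphisms of `ℂ` that fix a power of `α` is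
zero. For instance a power of `α` lies in a totally real field or in a field linearly disjoint from
the normal closures of the `K i`, or the degree of `α` (at most the Betti number) is less than twice
the dimension of each nonzero space of functions `n` stable under all automorphisms of `ℂ`. Then
(`TateClassesSplit`, starting files) **the classes in `H^j(A ^ r) ⊗ M` which are fixed by an open
subgroup of `Γ` are zero for odd `j`, and linear combinations of products of `m` Tate classes of
degree two on `A ^ r` (that is, of divisor classes, by Tate, Zarhin and Faltings) and of Tate
classes in `M(-m)` for `j = 2 m`.** So for all these `A` and all these smooth varieties `U` the Tate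
conjecture for `A ^ r × U` (all codimensions, all `r`, over all finite extensions) is equivalent to
the Tate conjecture for `U`. If `U` is a point it is the Tate conjecture for all powers of `A`.

**The theorem.** Let `E` be **any CM field of degree `2 g = 2 r ^ k`**, `r` a prime number, of
degree at least `16` if `r = 2`. Nothing is assumed about the Galois group of the normal closure of
`E`, and nothing about the subfields of `E`.

* (`HalfOfAll`) For all weights `M` (odd if `r = 2`; if `r` is odd then `r` may divide some, but not
  all of them) the property `P` is true for **at least one half of all `2 ^ g` types** of `E`.
* (`MostWithWeightsOne`) For the weights `M = 1` (for instance in the ordinary case) it is true for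
  at least `(1 - 1 / r) 2 ^ g` of the types.
* (`OneOfTwo`) There is a set `B` of embeddings of `E`, stable under complex conjugation, such that
  for **every** type `Φ` it is true for `Φ` or for the symmetric difference of `Φ` and `B`.
* (`SixteenPercent`) There is a number `g₀` such that for every CM field that is **abelian over
  `ℚ`**, of any degree `2 g ≥ 2 g₀`, and all odd weights it is true for at least 16 percent of all
  `2 ^ g` types; again nothing is assumed on the subfields.

All this is proved for finitely many pairwise independent fields `K i`; the proportions are then
multiplied. The bound for the number of the exceptional types in the starting files
(`AllCMTypesTimesSmooth`) tends to zero for the fields with few CM subfields, but it is larger than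
the number of all types for many fields with many CM subfields, for instance for all multiquadratic
fields; nothing was known there, and for these fields one half is the best possible proportion of
the types without relations.

The proof combines two parts of the starting files: the absence of linear relations between the
signed weights of these types (`Q29/EP`), which was applied there to motivic cohomology over finite
fields, and the splitting of the Tate classes for Weil numbers without multiplicative relations
(`Y1/TS`, `Y137`). The hypotheses on `V` (`IsPolarised`) are the Weil pairing and the semisimplicity
(Tate, Zarhin, Faltings).
-/

set_option autoImplicit false

namespace Pool.Agent.Results.MP_2a05c8_ag.HalfOfAllTimesSmooth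

open NumberField Module Pool.Agent.H204R3.CM Pool.Agent.H977R3.CM Pool.Agent.Y1.TS
  Pool.Agent.Y137.MV Pool.Agent.Q29.EP

/-- The Tate classes on `A ^ r × U` split for all abelian varieties `A` with a Frobenius element
whose characteristic polynomial is the product of the minimal polynomials of Weil numbers with the
slope types `Φ i`, `M i`, and all `U` unrelated to the fields `K i`. -/
def P : TypeProperty := fun p _ ν _ _ K _ _ _ M Φ =>
  ForAllWeil ν K M (fun a π => TateClassesSplit (p := p) a K π) Φ

theorem withoutRelations : WithoutRelations P := by
  intro p _ ν I _ K _ _ _ M Φ hind hMc hΦ hno a π ha hπ
  exact split_of_angle (fun i => (hπ i).gen) (fun i => (hπ i).weil)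
    (angle_types hind hMc hΦ
      (fun i => Pool.Agent.Q29.DP.notMem_degTypes_of_noRelations (hno i)) hπ)

/-- **The Tate conjecture for `A ^ r × U` is equivalent to the Tate conjecture for `U`, for the
abelian varieties `A` over finitely generated fields with a Frobenius element of one half of all
slope types of every CM field of degree `2 r ^ k`, and all unrelated smooth varieties `U`.** -/
theorem result : HalfOfAll P ∧ MostWithWeightsOne P ∧ OneOfTwo P ∧ SixteenPercent P :=
  ⟨halfOfAll withoutRelations, mostWithWeightsOne withoutRelations, oneOfTwo withoutRelations,
    sixteenPercent withoutRelations⟩

end Pool.Agent.Results.MP_2a05c8_ag.HalfOfAllTimesSmooth
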