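import Pool.Agent.K6.H79.ST.PairMain

/-!
# The motivic Sato-Tate conjecture: adding motives, with one Frobenius polynomial for each pair

Let `M i` (`i` in a finite set) be motives over a finitely generated field `k` of characteristic zero (of
André, or for absolute Hodge cycles), pure of the same weight `w`, with polarizations `b i`, and `M` their
direct sum. Let `V i = ℚ_ℓ ^ (n i)` be the `ℓ`-adic realizations with the actions `ρ i` of the Galois
group `Γ` of `k`, `𝔤` the Lie algebra over `ℚ_ℓ` of the motivic Galois group of `M`, and `𝔥 i`
(`isoLie b 𝔤 i`) the Lie algebra of the group `𝒢₁(M i)`, the kernel of the multiplier: it consists of the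
blocks of the elements of `𝔤` which preserve the polarization `b i`. One of the motives, `M o`, plays a
special role. **It may be any motive with semisimple `𝒢₁(M o)`, or the zero motive.**

**Theorem.** Suppose that the representation of `Γ` on the sum `V` of the `V i` is semisimple, that the
centre of `𝔥 o` is zero, and:

* (`IrreducibleAdjoint`) for `i ≠ o` the group `Γ` acts irreducibly on `𝔥 i`, and `𝔥 i` is not commutative
  (for instance `𝔥 i` is simple and the conjecture is known for `M i`; but this is not supposed);
* (`NotSupersingular`) for `i ≠ o` some `γ` in `Γ` has two eigenvalues on `V i` whose quotient is not a
  root of unity;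
* for `i ≠ o` and `j ≠ i` the motives are apart (`Apart`): the dimension of `𝔥 i` is greater than the one
  of `𝔥 j`, or (`IndependentFrom`) for **one element `γ` of `Γ`** (in the applications: a Frobenius element
  at one place, which depends on the pair) and **one eigenvalue `α`** of `γ` on `V i`, no positive power
  of `α` is in the multiplicative group generated by the eigenvalues of `γ` on `V j`; if also `j ≠ o`,
  then the same with `i` and `j` exchanged will do.

(These conditions are `Addable`.) Then the following are equivalent:

* (`MumfordTate`) the Tate tensors on `V`, in any number of variables in `V` and its dual space, are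
  exactly the tensors killed by `𝔤`;
* (`DegreeFour`) the Tate tensors with four variables on `V o` are killed by `𝔤`.

Since `𝔤` and the Lie algebra of the `ℓ`-adic monodromy group `G_ℓ(M)` are reductive and `Γ` is Zariski
dense in `G_ℓ(M)`, the first condition says that the identity components of `G_ℓ(M)` and of the motivic
Galois group are the same: this is the motivic Mumford-Tate conjecture for `M`, which is equivalent to Q1
for `M`, see the problem file. So **Q1 for `M` follows from Q1 for `M o`** (and even from its part in
degree four). If `M o = 0` (`n o = 0`) the second condition and the conditions on pairs with `j = o`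
are satisfied automatically: then the conjecture is proved for the sum of all other `M i`. (Here the
conjecture for the motives `M i` themselves is not supposed, but proved.)

The number of motives, their ranks and their motivic Galois groups are arbitrary. No condition is
imposed on more than two of them, or on all places, and for pairs it is only one condition on two
Frobenius polynomials. It is satisfied for instance if at some place over `p` all eigenvalues of `γ` on
`V j` have the same `p`-adic valuations and `α` has another one.

Compare `DegreeFourPrinciple` (which reduces the conjecture for sums to the Tate classes in degree four for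
pairs), `TwoFrobeniusMotives` (an isolated root), and `SumsOfUnrelatedMotives` (arbitrary `M₁`, `M₂`; a
condition at a dense set of places). For abelian varieties see Ribet, Lombardo, Commelin.

**Proof.** Let `L` be the Lie algebra of the endomorphisms which kill all Tate tensors; it is contained in
`𝔤`, and stable under `Γ` (starting library). For each additive function `θ` on the multiplicative group of
the algebraic closure `C` of `ℚ_ℓ`, the operator `θ(γ)` which is the multiplication by `θ(β)` on the
generalized eigenspaces of `γ` is in `L ⊗ C` (starting library). If `θ` vanishes at the eigenvalues of
`γ` on `V j` and not at `α`, it follows that there is an element of `L` whose `j`-th component is zero and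
whose `i`-th component is not. Its multiplier is zero, as it preserves `b j`; so by the irreducibility all
elements of `𝔥 i` are components of such elements. By the argument of Ribet with commutators, `L` contains
all `𝔥 i` with `i ≠ o`. Let `𝔮` be the part of `L` in the component `o`. The trace form of `V o` is
nondegenerate on `𝔮`, and the projection of `End (V o)` onto `𝔮` is a Tate tensor in four variables, so it
commutes with `𝔤`. It follows that each element of `𝔥 o` is the sum of an element of `𝔮` and of one
which commutes with `L`, thus with a subgroup of finite index of `Γ`; this is again a Tate tensor, killed
by `𝔤`. So it is in the centre of `𝔥 o` and zero. Finally `L` contains the homotheties, if `w ≠ 0`, by the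
weights of the Frobenius elements; hence `L = 𝔤`.
-/

set_option autoImplicit false

namespace Pool.Agent.Results.MP_d61fbb_ag.OneFrobeniusPerPair

open Pool.Agent.Y114.TF Pool.Agent.H204R3.GP Pool.Agent.R913.Adj Pool.Agent.K6.H79.ST

/-- **Motives which may be added**: the motivic Mumford-Tate and Sato-Tate conjectures for the sum of
`M o` and of irreducible `M i`, from one Frobenius polynomial for each pair. -/
theorem result {ι : Type} [Fintype ι] [DecidableEq ι] {n : ι → ℕ} {ℓ : ℕ} [Fact ℓ.Prime]
    {Γ : Type} [Group Γ] [TopologicalSpace Γ] [IsTopologicalGroup Γ] [CompactSpace Γ]
    (D : Family ℚ_[ℓ] (Sp n ℓ) Γ) (hρ : ∀ i, Continuous fun g => LinearMap.toMatrix' (D.ρ i g))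
    (hD : D.IsPolarized) (hw : D.w ≠ 0 → ∃ γ : Γ, ActsPurely D.ρ (fun _ => D.w) γ)
    (hss : FiniteIndexSemisimple (sumRep D.ρ)) (o : ι) (hadd : D.Addable o) :
    D.MumfordTate ↔ D.DegreeFour o :=
  tate_iff hρ hD hw hss hadd

end Pool.Agent.Results.MP_d61fbb_ag.OneFrobeniusPerPair
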